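import Pool.Agent.R721.TC.Main

/-!
Every finite soluble permutation group has a 2-colouring whose colour-preserving subgroup is
abelian-by-2-group.
-/

set_option autoImplicit false

namespace Pool.Agent.Results.MP_945175_al.TwoColours

/-- The colour-preserving subgroup `G_γ` of a permutation group `G` on `Ω`: the elements of `G`
mapping each colour class of the 2-colouring `γ` to itself. -/
def colourPreserving {Ω : Type} (G : Subgroup (Equiv.Perm Ω)) (γ : Ω → Fin 2) :
    Subgroup (Equiv.Perm Ω) where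
  carrier := {g | g ∈ G ∧ ∀ ω, γ (g ω) = γ ω}
  mul_mem' := by
    rintro a b ⟨ha, ha'⟩ ⟨hb, hb'⟩
    refine ⟨G.mul_mem ha hb, fun ω => ?_⟩
    rw [Equiv.Perm.mul_apply, ha', hb']
  one_mem' := ⟨G.one_mem, fun _ => rfl⟩
  inv_mem' := by
    rintro a ⟨ha, ha'⟩
    refine ⟨G.inv_mem ha, fun ω => ?_⟩
    have h1 := ha' (a⁻¹ ω)
    have h2 : a (a⁻¹ ω) = ω := a.apply_symm_apply ω
    rw [h2] at h1
    exact h1.symm

/-- A group is abelian-by-2-group if it has an abelian normal subgroup `N` such that the order of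
the quotient by `N` is a power of two. -/
def IsAbelianByTwoGroup (H : Type) [Group H] : Prop :=
  ∃ N : Subgroup H, N.Normal ∧ (∀ a ∈ N, ∀ b ∈ N, a * b = b * a) ∧
    ∃ n : ℕ, Nat.card (H ⧸ N) = 2 ^ n

open Pool.Agent.R721.TC in
/-- if elements of odd order commute then the group is abelian-by-2-group -/
theorem of_commute {H : Type} [Group H] [Finite H]
    (h : ∀ a b : H, OddG a → OddG b → a * b = b * a) : IsAbelianByTwoGroup H := by
  let N : Subgroup H :=
    { carrier := {a | OddG a}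
      mul_mem' := by
        rintro a b ⟨m, hm, ham⟩ ⟨n, hn, hbn⟩
        refine ⟨m * n, hm.mul hn, ?_⟩
        have hc : Commute a b := h a b ⟨m, hm, ham⟩ ⟨n, hn, hbn⟩
        rw [hc.mul_pow, pow_mul, ham, one_pow, one_mul, mul_comm, pow_mul, hbn, one_pow]
      one_mem' := ⟨1, odd_one, one_pow _⟩
      inv_mem' := by
        rintro a ⟨m, hm, ham⟩
        exact ⟨m, hm, by rw [inv_pow, ham, inv_one]⟩ }
  have hN : N.Normal := by
    constructor
    rintro a ⟨m, hm, ham⟩ g
    exact ⟨m, hm, by rw [conj_pow, ham, mul_one, mul_inv_cancel]⟩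
  refine ⟨N, hN, fun a ha b hb => h a b ha hb, ?_⟩
  have : Fact (Nat.Prime 2) := ⟨Nat.prime_two⟩
  rw [← IsPGroup.iff_card]
  intro q
  induction q using QuotientGroup.induction_on with
  | H g =>
      obtain ⟨k, m, hm, hkm⟩ := Nat.exists_eq_two_pow_mul_odd (orderOf_pos g).ne'
      refine ⟨k, ?_⟩
      rw [← QuotientGroup.mk_pow, QuotientGroup.eq_one_iff]
      exact ⟨m, hm, by rw [← pow_mul, ← hkm, pow_orderOf_eq_one]⟩

/-- Every soluble permutation group `G` on a finite set has a 2-colouring `γ` such that the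
colour-preserving subgroup `G_γ` is abelian-by-2-group. -/
theorem result : ∀ (Ω : Type) [Finite Ω] (G : Subgroup (Equiv.Perm Ω)), Group.IsSolvable G →
    ∃ γ : Ω → Fin 2, IsAbelianByTwoGroup (colourPreserving G γ) := by
  classical
  intro Ω _ G hG
  obtain ⟨R, hR⟩ := Pool.Agent.R721.TC.action (G := G) (X := Ω)
  refine ⟨fun ω => if ω ∈ R then 1 else 0, ?_⟩
  apply of_commute
  rintro ⟨a, ha, haγ⟩ ⟨b, hb, hbγ⟩ ⟨m, hm, ham⟩ ⟨n, hn, hbn⟩
  have hiff : ∀ (a : Equiv.Perm Ω), (∀ ω, (if a ω ∈ R then (1 : Fin 2) else 0) =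
      if ω ∈ R then 1 else 0) → ∀ ω, a ω ∈ R ↔ ω ∈ R := by
    intro a ha ω
    have h1 := ha ω
    by_cases h2 : a ω ∈ R <;> by_cases h3 : ω ∈ R <;> simp [h2, h3] at h1 ⊢
  have ham' : a ^ m = 1 := congrArg Subtype.val ham
  have hbn' : b ^ n = 1 := congrArg Subtype.val hbn
  have key := hR ⟨a, ha⟩ ⟨b, hb⟩ ⟨m, hm, Subtype.ext ham'⟩
    ⟨n, hn, Subtype.ext hbn'⟩ (hiff a haγ) (hiff b hbγ)
  exact Subtype.ext (Equiv.ext fun ω => key ω)

end Pool.Agent.Results.MP_945175_al.TwoColours
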